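import Mathlib
import Pool.Agent.K9h18.FG.Mdl

set_option autoImplicit false

/-!
# The frog model with death on Cayley graphs of virtually indicable groups: `t_c(λ) < ∞`

Let `Γ` be a group and `S` a finite nonempty symmetric generating set such that the balls of the
Cayley graph satisfy `|B(n)| ≥ c n ^ 5` for all `n ≥ 1` and some `c > 0` (by the theorems of Gromov
and of van den Dries and Wilkie this holds for every group of non-polynomial growth).  Suppose that
some subgroup `H` of finite index has a nontrivial homomorphism to `ℤ`.  We prove that the critical
lifetime of the frog model with death on the Cayley graph is finite for every density `lam > 0`.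

The model is defined in `Pool/Agent/K9h18/FG/Mdl.lean`: at every vertex there are independently
`Poisson(lam)` particles, each with independent `Exp(1)` waiting times and independent uniform steps
in `S`.  A particle is activated when its vertex is visited, and it then moves for time `t`.
`Visited t ω` is the set of the vertices that are ever visited, and `critLife S lam` is the supremum
of the `t ≥ 0` for which almost surely only finitely many vertices are visited.
-/

namespace Pool.Agent.Results.MP_e2f79e_pr.VirtuallyIndicable

open Pool.Agent.K9h18.FG
open scoped NNReal ENNReal Pointwise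

theorem result {Γ : Type} [Group Γ] [DecidableEq Γ] (S : Finset Γ) [Nonempty S]
    (hS : ∀ s ∈ S, s⁻¹ ∈ S) (hgen : Subgroup.closure (S : Set Γ) = ⊤)
    (c : ℝ) (hc : 0 < c)
    (hgr : ∀ n : ℕ, 1 ≤ n → c * (n : ℝ) ^ 5 ≤ ((((insert 1 S : Finset Γ) ^ n).card : ℕ) : ℝ))
    (H : Subgroup Γ) [H.FiniteIndex] (φ : H →* Multiplicative ℤ) (hφ : ∃ h, φ h ≠ 1)
    (lam : ℝ≥0) (hlam : 0 < lam) :
    critLife S lam < ⊤ :=
  critLife_lt_top hS hgen c hc hgr H φ hφ lam hlam

end Pool.Agent.Results.MP_e2f79e_pr.VirtuallyIndicable
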